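import Pool.Agent.H54.KVA.Defs
import Pool.Agent.H72.STK.PR2

/-!
# Module T2: sums have more local entropy
-/

set_option autoImplicit false

namespace Pool.KVA

open Finset Real MeasureTheory
open Pool.Agent.H49.Ent Pool.Agent.H32.Dense Pool.STK

namespace T2

/-- Adding independent variables does not decrease conditional entropies, up to rounding. -/
theorem gen {d : ℕ} {Ω₁ Ω₂ : Type} [Fintype Ω₁] [Fintype Ω₂] {p₁ : Ω₁ → ℝ} {p₂ : Ω₂ → ℝ}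
    (h₁ : IsLaw p₁) (h₂ : IsLaw p₂) (A B : Ω₁ → Fin d → ℤ) (A' B' : Ω₁ × Ω₂ → Fin d → ℤ)
    (hA : ∀ w w' : Ω₁ × Ω₂, w.2 = w'.2 → A' w = A' w' → ∀ k, |((A w.1 k - A w'.1 k : ℤ) : ℝ)| ≤ 1)
    (hB : ∀ w w' : Ω₁ × Ω₂, w.2 = w'.2 → B w.1 = B w'.1 →
      ∀ k, |((B' w k - B' w' k : ℤ) : ℝ)| ≤ 1) :
    CH p₁ A B - 2 * (d * Real.log 3) ≤ CH (pr2 p₁ p₂) A' B' := by
  obtain ⟨hl, -, -, -⟩ := pr2_thm Ω₁ Ω₂ Unit Unit p₁ p₂ h₁ h₂
  have e1 : CH (pr2 p₁ p₂) (fun w => A w.1) (fun w => (B w.1, w.2)) = CH p₁ A B := by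
    have a1 := (pr2_thm Ω₁ Ω₂ ((Fin d → ℤ) × (Fin d → ℤ)) Ω₂ p₁ p₂ h₁ h₂).2.2.2
      (fun ω => (A ω, B ω)) (fun ω => ω)
    have a2 := (pr2_thm Ω₁ Ω₂ (Fin d → ℤ) Ω₂ p₁ p₂ h₁ h₂).2.2.2 B (fun ω => ω)
    have a3 : H (pr2 p₁ p₂) (fun w => (A w.1, (B w.1, w.2))) =
        H (pr2 p₁ p₂) (fun w => ((A w.1, B w.1), w.2)) := by
      refine H_congr hl.nonneg ?_ ?_ <;>
      · intro ω ω' _ _ h
        simp only [Prod.mk.injEq] at h ⊢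
        tauto
    unfold CH
    linarith
  have e2 := CH_le_add hl.nonneg (fun w => A w.1) B' (fun w => (B w.1, w.2))
  have e3 := CH_le_add hl.nonneg (fun w => A w.1) A' (fun w => (B' w, (B w.1, w.2)))
  have e4 : CH (pr2 p₁ p₂) A' (fun w => (B' w, (B w.1, w.2))) ≤ CH (pr2 p₁ p₂) A' B' :=
    CH_mono_cond hl.nonneg fun ω ω' _ _ h => (Prod.ext_iff.mp h).1
  have e0 : Ex (pr2 p₁ p₂) (fun _ => Real.log (2 * (1 : ℝ) + 1)) = Real.log 3 := by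
    rw [Ex_const hl.sum_one]
    norm_num
  have e5 := CH_le_vec hl.nonneg hl.sum_one B' (fun w => (B w.1, w.2)) (fun _ => (1 : ℝ))
    (fun w w' _ _ h => by
      simp only [Prod.mk.injEq] at h
      exact hB w w' h.2 h.1)
  have e6 := CH_le_vec hl.nonneg hl.sum_one (fun w : Ω₁ × Ω₂ => A w.1)
    (fun w => (A' w, (B' w, (B w.1, w.2)))) (fun _ => (1 : ℝ))
    (fun w w' _ _ h => by
      simp only [Prod.mk.injEq] at h
      exact hA w w' h.2.2.2 h.1)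
  rw [e0] at e5 e6
  linarith

/-- Floors of numbers with the same floor after a common translation. -/
theorem floor_close {x x' y : ℝ} (h : ⌊x + y⌋ = ⌊x' + y⌋) : |((⌊x⌋ - ⌊x'⌋ : ℤ) : ℝ)| ≤ 1 := by
  have h1 := Int.abs_sub_lt_one_of_floor_eq_floor h
  have h2 : |x - x'| < 1 := by
    have e : x + y - (x' + y) = x - x' := by ring
    rwa [e] at h1
  have h3 := abs_lt.1 h2
  have a1 := Int.floor_le x
  have a2 := Int.lt_floor_add_one x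
  have a3 := Int.floor_le x'
  have a4 := Int.lt_floor_add_one x'
  have b1 : ⌊x⌋ - ⌊x'⌋ < 2 := by
    have : ((⌊x⌋ - ⌊x'⌋ : ℤ) : ℝ) < ((2 : ℤ) : ℝ) := by
      push_cast
      linarith
    exact_mod_cast this
  have b2 : -2 < ⌊x⌋ - ⌊x'⌋ := by
    have : ((-2 : ℤ) : ℝ) < ((⌊x⌋ - ⌊x'⌋ : ℤ) : ℝ) := by
      push_cast
      linarith
    exact_mod_cast this
  have b3 : |⌊x⌋ - ⌊x'⌋| ≤ 1 := abs_le.2 ⟨by linarith, by linarith⟩
  exact_mod_cast b3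

theorem fl_close {d : ℕ} {Ω₁ Ω₂ : Type} (X : Ω₁ → Fin d → ℝ) (Y : Ω₂ → Fin d → ℝ) (j : ℕ)
    (w w' : Ω₁ × Ω₂) (h : w.2 = w'.2) (h2 : Fl (Ad X Y) j w = Fl (Ad X Y) j w') (k : Fin d) :
    |((Fl X j w.1 k - Fl X j w'.1 k : ℤ) : ℝ)| ≤ 1 := by
  have h3 : ⌊2 ^ j * (X w.1 k + Y w.2 k)⌋ = ⌊2 ^ j * (X w'.1 k + Y w'.2 k)⌋ := congrFun h2 k
  rw [← h, mul_add, mul_add] at h3
  exact floor_close h3

theorem fl_close' {d : ℕ} {Ω₁ Ω₂ : Type} (X : Ω₁ → Fin d → ℝ) (Y : Ω₂ → Fin d → ℝ) (j : ℕ)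
    (w w' : Ω₁ × Ω₂) (h : w.2 = w'.2) (h2 : Fl X j w.1 = Fl X j w'.1) (k : Fin d) :
    |((Fl (Ad X Y) j w k - Fl (Ad X Y) j w' k : ℤ) : ℝ)| ≤ 1 := by
  have h3 : ⌊2 ^ j * X w.1 k⌋ = ⌊2 ^ j * X w'.1 k⌋ := congrFun h2 k
  have e1 : 2 ^ j * X w.1 k = 2 ^ j * (X w.1 k + Y w.2 k) + -(2 ^ j * Y w.2 k) := by ring
  have e2 : 2 ^ j * X w'.1 k = 2 ^ j * (X w'.1 k + Y w'.2 k) + -(2 ^ j * Y w.2 k) := by
    rw [h]
    ring
  rw [e1, e2] at h3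
  exact floor_close h3

theorem prj_close {d : ℕ} {Ω₁ Ω₂ : Type} (v : Fin d → Fin d → ℝ) (N : Finset (Fin d))
    (X : Ω₁ → Fin d → ℝ) (Y : Ω₂ → Fin d → ℝ) (j : ℕ)
    (w w' : Ω₁ × Ω₂) (h : w.2 = w'.2) (h2 : prj v N (Ad X Y) j w = prj v N (Ad X Y) j w')
    (k : Fin d) : |((prj v N X j w.1 k - prj v N X j w'.1 k : ℤ) : ℝ)| ≤ 1 := by
  have h3 := congrFun h2 k
  unfold prj at h3 ⊢
  by_cases hk : k ∈ N
  · rw [if_pos hk, if_pos hk] at h3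
    rw [if_pos hk, if_pos hk]
    have e : ∀ z : Ω₁ × Ω₂, (2 : ℝ) ^ j * ip (v k) (Ad X Y z) =
        2 ^ j * ip (v k) (X z.1) + 2 ^ j * ip (v k) (Y z.2) := by
      intro z
      unfold ip Ad
      rw [← mul_add, ← Finset.sum_add_distrib]
      congr 1
      refine Finset.sum_congr rfl fun i _ => by ring
    rw [e, e, ← h] at h3
    exact floor_close h3
  · rw [if_neg hk, if_neg hk]
    simp

/-- The increment of the entropy is a conditional entropy. -/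
theorem inc_eq {Ω : Type} [Fintype Ω] {d : ℕ} {p : Ω → ℝ} (hp : ∀ ω, 0 ≤ p ω)
    (X : Ω → Fin d → ℝ) {j j' : ℕ} (hj : j' ≤ j) :
    CH p (Fl X j) (Fl X j') = H p (Fl X j) - H p (Fl X j') := by
  unfold CH
  congr 1
  refine H_congr hp ?_ ?_
  swap
  · intro ω ω' _ _ h
    exact (Prod.ext_iff.mp h).1
  · intro ω ω' _ _ h
    refine Prod.ext h ?_
    funext k
    have h3 : ⌊2 ^ j * X ω k⌋ = ⌊2 ^ j * X ω' k⌋ := congrFun h k
    have e : ∀ x : ℝ, (2 : ℝ) ^ j' * x = 2 ^ j * x / ((2 ^ (j - j') : ℕ) : ℝ) := by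
      intro x
      have : (2 : ℝ) ^ j = 2 ^ j' * 2 ^ (j - j') := by
        rw [← pow_add, Nat.add_sub_cancel' hj]
      rw [this]
      push_cast
      field_simp
    change ⌊2 ^ j' * X ω k⌋ = ⌊2 ^ j' * X ω' k⌋
    rw [e, e, Int.floor_div_natCast, Int.floor_div_natCast, h3]

end T2

theorem t2_thm : T2Stmt := by
  intro d
  refine ⟨2 * (d * Real.log 3), by positivity, ?_⟩
  intro Ω₁ Ω₂ _ _ p₁ p₂ X Y j j' v N h₁ h₂ _ hj
  obtain ⟨hl, -, -, -⟩ := pr2_thm Ω₁ Ω₂ Unit Unit p₁ p₂ h₁ h₂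
  refine ⟨?_, ?_, ?_⟩
  · have h := T2.gen h₁ h₂ (Fl X j) (fun _ => 0) (Fl (Ad X Y) j) (fun _ => 0)
      (T2.fl_close X Y j) (fun w w' _ _ k => by simp)
    have e1 : CH p₁ (Fl X j) (fun _ => (0 : Fin d → ℤ)) = H p₁ (Fl X j) := by
      unfold CH
      rw [H_const h₁.sum_one, sub_zero]
      exact H_congr h₁.nonneg (fun _ _ _ _ h => Prod.ext h rfl)
        (fun _ _ _ _ h => (Prod.ext_iff.mp h).1)
    have e2 : CH (pr2 p₁ p₂) (Fl (Ad X Y) j) (fun _ => (0 : Fin d → ℤ)) =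
        H (pr2 p₁ p₂) (Fl (Ad X Y) j) := by
      unfold CH
      rw [H_const hl.sum_one, sub_zero]
      exact H_congr hl.nonneg (fun _ _ _ _ h => Prod.ext h rfl)
        (fun _ _ _ _ h => (Prod.ext_iff.mp h).1)
    rw [e1, e2] at h
    exact h
  · have h := T2.gen h₁ h₂ (Fl X j) (Fl X j') (Fl (Ad X Y) j) (Fl (Ad X Y) j')
      (T2.fl_close X Y j) (T2.fl_close' X Y j')
    rw [T2.inc_eq h₁.nonneg X hj, T2.inc_eq hl.nonneg (Ad X Y) hj] at h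
    exact h
  · exact T2.gen h₁ h₂ (prj v N X j) (Fl X j') (prj v N (Ad X Y) j) (Fl (Ad X Y) j')
      (T2.prj_close v N X Y j) (T2.fl_close' X Y j')

end Pool.KVA
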